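import Pool.Agent.Helper68_Leo4.Basic

/-!
# Squad LEO4, module CUB: the cubic form of an ideal
-/

set_option autoImplicit false

open NumberField IsDedekindDomain WithZero Module Polynomial

namespace Pool.Agent.Leo4.H52

open Pool.Agent.Leo4

theorem cub : CubStmt := by
  intro k K _ _ _ _ _ f s m _ hf _ hs hm c hcs hcx I β u v B hI hB hnorm hu hv _ hdet
  have hinj : Function.Injective (algebraMap k K) := (algebraMap k K).injective
  set E : O → K := fun x => algebraMap k K (ev f x) with hE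
  have hEinj : ∀ x y : O, E x = E y → x = y := fun x y h => ev_inj hf (hinj h)
  have hE0 : ∀ x : O, x ≠ 0 → E x ≠ 0 := by
    intro x hx h
    exact ev_ne_zero hf hx (hinj (h.trans (map_zero _).symm))
  have hEmul : ∀ x y : O, E (x * y) = E x * E y := by
    intro x y
    simp only [hE]
    rw [ev_mul hf, map_mul]
  have hEsub : ∀ x y : O, E (x - y) = E x - E y := by
    intro x y
    simp only [hE]
    rw [ev_sub, map_sub]
  have hEpow : ∀ (x : O) (n : ℕ), E (x ^ n) = E x ^ n := by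
    intro x n
    simp only [hE]
    rw [ev_pow hf, map_pow]
  have hE4 : E 4 = 4 := by
    simp only [hE]
    rw [ev_ofNat, map_ofNat]
  have hs' : s ^ 2 = -E m := hs
  have hs0 : s ≠ 0 := by
    rintro rfl
    have h0 : E m = 0 := by
      rw [zero_pow (by norm_num)] at hs'
      exact neg_eq_zero.1 hs'.symm
    exact hE0 m hm.sqf.ne_zero h0
  have hEB := hE0 B hB
  have hnorm' : (β : K) * c β = E B ^ 3 := hnorm
  have hdet' : (u : K) * c v - (v : K) * c u = E B * s := hdet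
  have hb : (β : K) ≠ 0 := by
    intro h
    rw [h, zero_mul] at hnorm'
    exact pow_ne_zero 3 hEB hnorm'.symm
  have hb' : c (β : K) ≠ 0 := by
    intro h
    rw [h, mul_zero] at hnorm'
    exact pow_ne_zero 3 hEB hnorm'.symm
  set U : K := (u : K) with hU
  set V : K := (v : K) with hV
  set U' : K := c (u : K) with hU'
  set V' : K := c (v : K) with hV'
  set b : K := (β : K) with hbdef
  set b' : K := c (β : K) with hb'def
  -- the coefficients
  have hcoef : ∀ x : 𝓞 K, x ∈ I ^ 3 → ∃ a : O, E a * s =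
      1 / b * (x : K) - 1 / b' * c (x : K) := by
    intro x hx
    rw [hI, Ideal.mem_span_singleton] at hx
    obtain ⟨g, hg⟩ := hx
    obtain ⟨a, ha⟩ := hcx g
    refine ⟨a, ?_⟩
    have hg' : (x : K) = b * (g : K) := by
      have := congrArg (fun z : 𝓞 K => (z : K)) hg
      simpa using this
    have e1 : (g : K) = 1 / b * (x : K) := by
      rw [hg', ← mul_assoc, one_div, inv_mul_cancel₀ hb, one_mul]
    have e2 : c (g : K) = 1 / b' * c (x : K) := by
      rw [e1, map_mul, map_div₀, map_one]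
    have ha' : (g : K) - c g = E a * s := ha
    rw [← ha', e2, ← e1]
  obtain ⟨a₀, h0⟩ := hcoef (u * u * u) (by
    rw [pow_three']; exact Ideal.mul_mem_mul (Ideal.mul_mem_mul hu hu) hu)
  obtain ⟨a₁, h1⟩ := hcoef (u * u * v) (by
    rw [pow_three']; exact Ideal.mul_mem_mul (Ideal.mul_mem_mul hu hu) hv)
  obtain ⟨a₂, h2⟩ := hcoef (u * v * v) (by
    rw [pow_three']; exact Ideal.mul_mem_mul (Ideal.mul_mem_mul hu hv) hv)
  obtain ⟨a₃, h3⟩ := hcoef (v * v * v) (by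
    rw [pow_three']; exact Ideal.mul_mem_mul (Ideal.mul_mem_mul hv hv) hv)
  have hc0 : ∀ x y z : 𝓞 K, ((x * y * z : 𝓞 K) : K) = (x : K) * (y : K) * (z : K) := by
    intro x y z
    simp
  rw [hc0, map_mul, map_mul] at h0 h1 h2 h3
  set k₁ : K := 1 / b with hk₁
  set k₂ : K := 1 / b' with hk₂
  have hkk : k₁ * k₂ * E B ^ 3 = 1 := by
    rw [hk₁, hk₂, div_mul_div_comm, hnorm', one_mul]
    exact one_div_mul_cancel (pow_ne_zero 3 hEB)
  have h0' : E a₀ * s = k₁ * (U * U * U) - k₂ * (U' * U' * U') := h0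
  have h1' : E a₁ * s = k₁ * (U * U * V) - k₂ * (U' * U' * V') := h1
  have h2' : E a₂ * s = k₁ * (U * V * V) - k₂ * (U' * V' * V') := h2
  have h3' : E a₃ * s = k₁ * (V * V * V) - k₂ * (V' * V' * V') := h3
  -- the Hessian
  have hP : E (fP a₀ a₁ a₂) * E B = U * U' := by
    have e1 : E (fP a₀ a₁ a₂) * s ^ 2 = k₁ * k₂ * (U * U') * (E B * s) ^ 2 := by
      have e0 : E (fP a₀ a₁ a₂) * s ^ 2 = (E a₁ * s) ^ 2 - (E a₀ * s) * (E a₂ * s) := by
        rw [fP, hEsub, hEpow, hEmul]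
        ring
      rw [e0, h0', h1', h2', ← hdet']
      ring
    have e2 : (E (fP a₀ a₁ a₂) * E B) * s ^ 2 = (U * U') * s ^ 2 := by
      calc (E (fP a₀ a₁ a₂) * E B) * s ^ 2 = (E (fP a₀ a₁ a₂) * s ^ 2) * E B := by ring
        _ = (k₁ * k₂ * E B ^ 3) * (U * U') * s ^ 2 := by rw [e1]; ring
        _ = (U * U') * s ^ 2 := by rw [hkk, one_mul]
    exact mul_right_cancel₀ (pow_ne_zero 2 hs0) e2
  have hR : E (fR a₁ a₂ a₃) * E B = V * V' := by
    have e1 : E (fR a₁ a₂ a₃) * s ^ 2 = k₁ * k₂ * (V * V') * (E B * s) ^ 2 := by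
      have e0 : E (fR a₁ a₂ a₃) * s ^ 2 = (E a₂ * s) ^ 2 - (E a₁ * s) * (E a₃ * s) := by
        rw [fR, hEsub, hEpow, hEmul]
        ring
      rw [e0, h1', h2', h3', ← hdet']
      ring
    have e2 : (E (fR a₁ a₂ a₃) * E B) * s ^ 2 = (V * V') * s ^ 2 := by
      calc (E (fR a₁ a₂ a₃) * E B) * s ^ 2 = (E (fR a₁ a₂ a₃) * s ^ 2) * E B := by ring
        _ = (k₁ * k₂ * E B ^ 3) * (V * V') * s ^ 2 := by rw [e1]; ring
        _ = (V * V') * s ^ 2 := by rw [hkk, one_mul]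
    exact mul_right_cancel₀ (pow_ne_zero 2 hs0) e2
  have hQ : E (fQ a₀ a₁ a₂ a₃) * E B = U * V' + V * U' := by
    have e1 : E (fQ a₀ a₁ a₂ a₃) * s ^ 2 = k₁ * k₂ * (U * V' + V * U') * (E B * s) ^ 2 := by
      have e0 : E (fQ a₀ a₁ a₂ a₃) * s ^ 2 = (E a₁ * s) * (E a₂ * s) - (E a₀ * s) * (E a₃ * s) := by
        rw [fQ, hEsub, hEmul, hEmul]
        ring
      rw [e0, h0', h1', h2', h3', ← hdet']
      ring
    have e2 : (E (fQ a₀ a₁ a₂ a₃) * E B) * s ^ 2 = (U * V' + V * U') * s ^ 2 := by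
      calc (E (fQ a₀ a₁ a₂ a₃) * E B) * s ^ 2 = (E (fQ a₀ a₁ a₂ a₃) * s ^ 2) * E B := by ring
        _ = (k₁ * k₂ * E B ^ 3) * (U * V' + V * U') * s ^ 2 := by rw [e1]; ring
        _ = (U * V' + V * U') * s ^ 2 := by rw [hkk, one_mul]
    exact mul_right_cancel₀ (pow_ne_zero 2 hs0) e2
  refine ⟨a₀, a₁, a₂, a₃, ?_, hP, hQ, hR, ?_⟩
  · have e1 : c (U ^ 3 / b) = U' ^ 3 / b' := by rw [map_div₀, map_pow]
    rw [e1]
    have e2 : algebraMap k K (ev f a₀) * s = E a₀ * s := rfl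
    rw [e2, h0', hk₁, hk₂]
    ring
  · apply hEinj
    have e1 : E (fM a₀ a₁ a₂ a₃) * E B ^ 2 = E m * E B ^ 2 := by
      have e0 : E (fM a₀ a₁ a₂ a₃) * E B ^ 2 =
          4 * (E (fP a₀ a₁ a₂) * E B) * (E (fR a₁ a₂ a₃) * E B) -
            (E (fQ a₀ a₁ a₂ a₃) * E B) ^ 2 := by
        rw [fM, hEsub, hEmul, hEmul, hE4, hEpow]
        ring
      rw [e0, hP, hQ, hR]
      have e3 : 4 * (U * U') * (V * V') - (U * V' + V * U') ^ 2 = -(U * V' - V * U') ^ 2 := by ring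
      rw [e3, hdet', mul_pow, hs']
      ring
    exact mul_right_cancel₀ (pow_ne_zero 2 hEB) e1

end Pool.Agent.Leo4.H52
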