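import Pool.Agent.Helper68_Leo4.Basic

/-!
# Squad LEO4, module EIS: a class of order 3 gives a binary cubic form
-/

set_option autoImplicit false

open NumberField IsDedekindDomain WithZero Module Polynomial
open scoped nonZeroDivisors

namespace Pool.Agent.Leo4.H52

open Pool.Agent.Leo4

/-- If `P ^ 3 = k ^ 2` in `O` then `P` is a square and `k` is a cube. -/
theorem cube_sq [IsPrincipalIdealRing O] {P k : O} (hP : P ≠ 0) (h : P ^ 3 = k ^ 2) :
    ∃ t : O, t ≠ 0 ∧ k = t ^ 3 := by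
  have h1 : P ^ 2 ∣ k ^ 2 := ⟨P, by rw [← h]; ring⟩
  have h2 : P ∣ k := (UniqueFactorizationMonoid.pow_dvd_pow_iff_dvd (n := 2) (by norm_num)).1 h1
  obtain ⟨t, ht⟩ := h2
  refine ⟨t, ?_, ?_⟩
  · rintro rfl
    rw [mul_zero] at ht
    rw [ht, zero_pow (by norm_num)] at h
    exact hP (pow_eq_zero_iff (by norm_num) |>.1 h)
  · have h3 : P ^ 2 * P = P ^ 2 * t ^ 2 := by
      calc P ^ 2 * P = P ^ 3 := by ring
        _ = k ^ 2 := h
        _ = P ^ 2 * t ^ 2 := by rw [ht]; ring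
    have h4 : P = t ^ 2 := mul_left_cancel₀ (pow_ne_zero 2 hP) h3
    rw [ht, h4]
    ring

/-- the real computation at one place -/
theorem place_eq {P Q R M x : ℝ} (hP : 0 < P) (hM : 0 < M) (h : 4 * P * R - Q ^ 2 = M) :
    R + x * Q + x ^ 2 * P =
      P * ((Q / (2 * P) + x) ^ 2 + (Real.sqrt M / (2 * P)) ^ 2) := by
  have h1 : Real.sqrt M ^ 2 = M := Real.sq_sqrt hM.le
  have h2 : P ≠ 0 := hP.ne'
  rw [div_pow, h1, ← h]
  field_simp
  ring

theorem int_of_sq {A : Type*} [CommRing A] {f : A} (hf : f ^ 2 = f + 1) : IsIntegral ℤ f := by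
  refine ⟨Polynomial.X ^ 2 - Polynomial.X - 1, by monicity!, ?_⟩
  simp [hf]

theorem eis (hO : OkrStmt) (hQ : QuaStmt) (hI : IdlStmt) (hC : CubStmt) (hF : FlrStmt) :
    EisStmt := by
  intro k K _ _ _ _ _ f s m hk hf hK hs hm h3
  haveI : IsPrincipalIdealRing O := hO.2.1
  obtain ⟨c, hcs, hfix, hcx, hcn, -, -⟩ := hQ k K f s m hk hf hK hs hm
  obtain ⟨x, hx⟩ := exists_prime_orderOf_dvd_card 3 h3
  obtain ⟨⟨I, hI0⟩, rfl⟩ := ClassGroup.mk0_surjective x
  have hIne : I ≠ ⊥ := mem_nonZeroDivisors_iff_ne_zero.1 hI0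
  have hnp : ¬ I.IsPrincipal := by
    intro hp
    rw [← ClassGroup.mk0_eq_one_iff hI0] at hp
    rw [hp, orderOf_one] at hx
    norm_num at hx
  have hI3 : (I ^ 3).IsPrincipal := by
    have h1 : ClassGroup.mk0 (⟨I, hI0⟩ : (Ideal (𝓞 K))⁰) ^ 3 = 1 := by
      rw [← hx]
      exact pow_orderOf_eq_one _
    rw [← map_pow] at h1
    exact (ClassGroup.mk0_eq_one_iff (pow_mem hI0 3)).1 h1
  obtain ⟨β, u, v, B, hβI, hB1, hB2, hβn, hu, hv, hu0, hspan, hdet, hmin, hnB⟩ :=
    hI k K f s m hk hf hK hs hm c hcs I hIne hI3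
  have hB0 : B ≠ 0 := by
    rintro rfl
    rw [e1_zero] at hB1
    exact lt_irrefl _ hB1
  obtain ⟨a₀, a₁, a₂, a₃, hg0, hP, hQ', hR, hM⟩ := hC k K f s m hk hf hK hs hm c hcs hcx I β u v B
    hβI hB0 hβn hu hv hu0 hdet
  -- the embedding of `O`
  have hinj : Function.Injective (algebraMap k K) := (algebraMap k K).injective
  set E : O → K := fun x => algebraMap k K (ev f x) with hE
  have hEinj : ∀ x y : O, E x = E y → x = y := fun x y h => ev_inj hf (hinj h)
  have hE0 : ∀ x : O, x ≠ 0 → E x ≠ 0 := by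
    intro x hx h
    exact ev_ne_zero hf hx (hinj (h.trans (map_zero _).symm))
  have hEmul : ∀ x y : O, E (x * y) = E x * E y := by
    intro x y
    simp only [hE]
    rw [ev_mul hf, map_mul]
  have hEadd : ∀ x y : O, E (x + y) = E x + E y := by
    intro x y
    simp only [hE]
    rw [ev_add, map_add]
  have hEpow : ∀ (x : O) (n : ℕ), E (x ^ n) = E x ^ n := by
    intro x n
    simp only [hE]
    rw [ev_pow hf, map_pow]
  have hcE : ∀ x : O, c (E x) = E x := fun x => c.commutes _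
  -- the elements of `O` as integers of `K`
  have hfK : (algebraMap k K f) ^ 2 = algebraMap k K f + 1 := by
    rw [← map_pow, hf, map_add, map_one]
  have hfint : IsIntegral ℤ (algebraMap k K f) := int_of_sq hfK
  set F : 𝓞 K := ⟨algebraMap k K f, hfint⟩ with hFdef
  have hF2 : F ^ 2 = F + 1 := by
    apply RingOfIntegers.ext
    have h1 : ((F ^ 2 : 𝓞 K) : K) = (F : K) ^ 2 := by simp
    have h2 : ((F + 1 : 𝓞 K) : K) = (F : K) + 1 := by simp
    rw [h1, h2]
    exact hfK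
  have hFE : ∀ x : O, ((ev F x : 𝓞 K) : K) = E x := by
    intro x
    have h1 := map_ev (algebraMap (𝓞 K) K) F x
    have h2 := map_ev (algebraMap k K) f x
    simp only [hE]
    rw [h2]
    exact h1
  have hnn : ∀ x : 𝓞 K, ∀ y : O, (x : K) * c x = E y → 0 ≤ e1 y ∧ 0 ≤ e2 y ∧
      nm y = (Ideal.absNorm (Ideal.span {x}) : ℕ) := by
    intro x y hxy
    obtain ⟨y', hy', h1, h2, h3⟩ := hcn x
    have h4 : y = y' := hEinj _ _ (by rw [← hxy]; exact hy')
    rw [h4]
    exact ⟨h1, h2, h3⟩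
  -- positivity of `P`
  have hPB : (u : K) * c u = E (fP a₀ a₁ a₂ * B) := by
    rw [hEmul]
    exact hP.symm
  obtain ⟨hp1, hp2, hpn⟩ := hnn u _ hPB
  have hPB0 : fP a₀ a₁ a₂ * B ≠ 0 := by
    intro h
    rw [h] at hPB
    have h1 : E 0 = 0 := by
      simp only [hE]
      rw [ev_zero, map_zero]
    rw [h1, mul_eq_zero] at hPB
    have h2 : (u : K) = 0 := by
      rcases hPB with h | h
      · exact h
      · exact (map_eq_zero c).1 h
    exact hu0 (RingOfIntegers.ext h2)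
  have hP0 : fP a₀ a₁ a₂ ≠ 0 := fun h => hPB0 (by rw [h, zero_mul])
  have hP1 : 0 < e1 (fP a₀ a₁ a₂) := by
    have h1 : 0 < e1 (fP a₀ a₁ a₂ * B) := lt_of_le_of_ne hp1 (e1_ne_zero hPB0).symm
    rw [e1_mul] at h1
    exact pos_of_mul_pos_left h1 hB1.le
  have hP2 : 0 < e2 (fP a₀ a₁ a₂) := by
    have h1 : 0 < e2 (fP a₀ a₁ a₂ * B) := lt_of_le_of_ne hp2 (e2_ne_zero hPB0).symm
    rw [e2_mul] at h1
    exact pos_of_mul_pos_left h1 hB2.le
  refine ⟨a₀, a₁, a₂, a₃, ?_, hP1, hP2, ?_, hM⟩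
  · -- `a₀ ≠ 0`
    rintro rfl
    have hu3 : u ^ 3 ∈ I ^ 3 := Ideal.pow_mem_pow hu 3
    rw [hβI, Ideal.mem_span_singleton] at hu3
    obtain ⟨k', hk'⟩ := hu3
    have hEB := hE0 B hB0
    have hβn' : (β : K) * c β = E B ^ 3 := hβn
    have hβF : (β : K) ≠ 0 := by
      intro h
      rw [h, zero_mul] at hβn'
      exact pow_ne_zero 3 hEB hβn'.symm
    have hkF : (k' : K) = (u : K) ^ 3 / β := by
      rw [eq_div_iff hβF, mul_comm]
      have := congrArg (fun z : 𝓞 K => (z : K)) hk'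
      push_cast at this
      rw [this]
    have hfx : c (k' : K) = k' := by
      rw [hkF]
      rw [ev_zero, map_zero, zero_mul] at hg0
      exact (sub_eq_zero.1 hg0).symm
    obtain ⟨ka, hka⟩ := hfix k' hfx
    have hka' : (k' : K) = E ka := hka
    have hsq : (fP 0 a₁ a₂) ^ 3 = ka ^ 2 := by
      apply hEinj
      rw [hEpow, hEpow]
      have h1 : E ka ^ 2 = (k' : K) * c k' := by rw [hfx, hka', sq]
      have h2 : c (k' : K) = (c (u : K)) ^ 3 / c (β : K) := by rw [hkF, map_div₀, map_pow]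
      rw [h1, h2, hkF, div_mul_div_comm, hβn', ← mul_pow, hPB, hEmul, mul_pow,
        mul_div_cancel_right₀ _ (pow_ne_zero 3 hEB)]
    obtain ⟨t, ht0, ht⟩ := cube_sq hP0 hsq
    have hk'' : k' = ev F t ^ 3 := by
      apply RingOfIntegers.ext
      have h1 : ((ev F t ^ 3 : 𝓞 K) : K) = ((ev F t : 𝓞 K) : K) ^ 3 := by simp
      rw [h1, hFE, hka', ht, hEpow]
    have htO : ev F t ≠ 0 := by
      intro h
      apply hE0 t ht0
      rw [← hFE, h]
      simp
    have hcube : Ideal.span {u} ^ 3 = (I * Ideal.span {ev F t}) ^ 3 := by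
      rw [mul_pow, hβI, Ideal.span_singleton_pow, Ideal.span_singleton_pow,
        Ideal.span_singleton_mul_span_singleton, hk', hk'']
    have heq : Ideal.span {u} = I * Ideal.span {ev F t} := by
      refine dvd_antisymm ?_ ?_
      · rw [← UniqueFactorizationMonoid.pow_dvd_pow_iff_dvd (n := 3) (by norm_num), hcube]
      · rw [← UniqueFactorizationMonoid.pow_dvd_pow_iff_dvd (n := 3) (by norm_num), hcube]
    have hut : u ∈ Ideal.span {ev F t} := by
      have h1 : u ∈ Ideal.span {u} := Ideal.mem_span_singleton_self u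
      rw [heq] at h1
      exact Ideal.mul_le_right h1
    rw [Ideal.mem_span_singleton] at hut
    obtain ⟨w, hw⟩ := hut
    have hIw : Ideal.span {ev F t} * Ideal.span {w} = Ideal.span {ev F t} * I := by
      rw [Ideal.span_singleton_mul_span_singleton, ← hw, heq, mul_comm]
    have hIw' : Ideal.span {w} = I := mul_left_cancel₀ (by
      rw [Ne, Ideal.zero_eq_bot, Ideal.span_singleton_eq_bot]
      exact htO) hIw
    exact hnp ⟨⟨w, hIw'.symm⟩⟩
  · -- the bound
    by_contra hcon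
    push Not at hcon
    set P := fP a₀ a₁ a₂ with hPdef
    set Q := fQ a₀ a₁ a₂ a₃ with hQdef
    set R := fR a₁ a₂ a₃ with hRdef
    have hM' : 4 * P * R - Q ^ 2 = m := hM
    have hM1 : 4 * e1 P * e1 R - e1 Q ^ 2 = e1 m := by
      rw [← hM', e1_sub, e1_mul, e1_mul, e1_pow, e1_ofNat]
    have hM2 : 4 * e2 P * e2 R - e2 Q ^ 2 = e2 m := by
      rw [← hM', e2_sub, e2_mul, e2_mul, e2_pow, e2_ofNat]
    set y1 : ℝ := Real.sqrt (e1 m) / (2 * e1 P) with hy1
    set y2 : ℝ := Real.sqrt (e2 m) / (2 * e2 P) with hy2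
    have hy1p : 0 < y1 := div_pos (Real.sqrt_pos.2 hm.pos1) (by positivity)
    have hy2p : 0 < y2 := div_pos (Real.sqrt_pos.2 hm.pos2) (by positivity)
    have hnP : (nm P : ℝ) = e1 P * e2 P := nm_eq P
    have hyy : y1 * y2 < 1 / 2 := by
      have h1 : y1 * y2 = Real.sqrt (nm m) / (4 * (nm P : ℝ)) := by
        rw [hy1, hy2, div_mul_div_comm, ← Real.sqrt_mul hm.pos1.le, ← nm_eq, hnP]
        ring
      have h2 : (0 : ℝ) < nm P := by rw [hnP]; positivity
      rw [h1, div_lt_iff₀ (by positivity)]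
      have h3 : (nm m : ℝ) < (2 * (nm P : ℝ)) ^ 2 := by
        have : ((nm m : ℤ) : ℝ) < ((4 * nm P ^ 2 : ℤ) : ℝ) := by exact_mod_cast hcon
        push_cast at this
        linarith
      have h4 : Real.sqrt (nm m) < 2 * (nm P : ℝ) := by
        rw [Real.sqrt_lt' (by positivity)]
        exact h3
      linarith
    obtain ⟨x, hx⟩ := hF (e1 Q / (2 * e1 P)) (e2 Q / (2 * e2 P)) y1 y2 hy1p hy2p hyy
    set W : O := R + x * Q + x ^ 2 * P with hW
    have hW1 : e1 W = e1 P * ((e1 Q / (2 * e1 P) + e1 x) ^ 2 + y1 ^ 2) := by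
      rw [hW, e1_add, e1_add, e1_mul, e1_mul, e1_pow, hy1, ← place_eq hP1 hm.pos1 hM1]
    have hW2 : e2 W = e2 P * ((e2 Q / (2 * e2 P) + e2 x) ^ 2 + y2 ^ 2) := by
      rw [hW, e2_add, e2_add, e2_mul, e2_mul, e2_pow, hy2, ← place_eq hP2 hm.pos2 hM2]
    have hW1p : 0 < e1 W := by
      rw [hW1]
      have := sq_nonneg (e1 Q / (2 * e1 P) + e1 x)
      positivity
    have hW0 : W ≠ 0 := by
      intro h
      rw [h, e1_zero] at hW1p
      exact lt_irrefl _ hW1p
    have hWn : (nm W : ℝ) < nm P := by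
      rw [nm_eq W, hnP, hW1, hW2]
      have h1 : e1 P * ((e1 Q / (2 * e1 P) + e1 x) ^ 2 + y1 ^ 2) *
          (e2 P * ((e2 Q / (2 * e2 P) + e2 x) ^ 2 + y2 ^ 2)) =
          (e1 P * e2 P) * (((e1 Q / (2 * e1 P) + e1 x) ^ 2 + y1 ^ 2) *
            ((e2 Q / (2 * e2 P) + e2 x) ^ 2 + y2 ^ 2)) := by ring
      rw [h1]
      have h2 : 0 < e1 P * e2 P := by positivity
      nlinarith
    -- the element `v + x u`
    set z : 𝓞 K := v + ev F x * u with hz
    have hzI : z ∈ I := I.add_mem hv (I.mul_mem_left _ hu)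
    have hzK : (z : K) = (v : K) + E x * u := by
      rw [hz]
      have h1 : ((v + ev F x * u : 𝓞 K) : K) = (v : K) + ((ev F x : 𝓞 K) : K) * (u : K) := by simp
      rw [h1, hFE]
    have hzn : (z : K) * c z = E (B * W) := by
      rw [hzK, map_add, map_mul, hcE]
      have h1 : E P * E B = (u : K) * c u := hP
      have h2 : E Q * E B = (u : K) * c v + (v : K) * c u := hQ'
      have h3 : E R * E B = (v : K) * c v := hR
      rw [hEmul, hW, hEadd, hEadd, hEmul, hEmul, hEpow]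
      calc ((v : K) + E x * u) * (c (v : K) + E x * c (u : K))
          = (v : K) * c v + E x * ((u : K) * c v + (v : K) * c u) + E x ^ 2 * ((u : K) * c u) := by
            ring
        _ = E R * E B + E x * (E Q * E B) + E x ^ 2 * (E P * E B) := by rw [h1, h2, h3]
        _ = E B * (E R + E x * E Q + E x ^ 2 * E P) := by ring
    have hz0 : z ≠ 0 := by
      intro h
      rw [h] at hzn
      have h1 : E (B * W) = 0 := by
        rw [← hzn]
        simp
      exact hE0 _ (mul_ne_zero hB0 hW0) h1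
    obtain ⟨-, -, hznn⟩ := hnn z _ hzn
    have hle := hmin z hzI hz0
    have h5 : (nm (P * B) : ℤ) ≤ nm (B * W) := by
      rw [hpn, hznn]
      exact_mod_cast hle
    rw [nm_mul, nm_mul] at h5
    have hnBp : (0 : ℝ) < nm B := by rw [nm_eq]; positivity
    have h6 : ((nm P * nm B : ℤ) : ℝ) ≤ ((nm B * nm W : ℤ) : ℝ) := by exact_mod_cast h5
    push_cast at h6
    nlinarith

end Pool.Agent.Leo4.H52
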